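import Mathlib

/-!
# MP_ed2bed_nt: the solutions of `φ(σ(n)) = n` which are not divisible by `8`
-/

set_option autoImplicit false

open ArithmeticFunction

namespace Pool.Agent.Results.MP_ed2bed_nt.DivisibleByEight

lemma le_two_of_odd (N : ℕ) (h : N.totient % 2 = 1) : N ≤ 2 := by
  by_contra hc
  have := Nat.totient_even (n := N) (by omega)
  rw [Nat.even_iff] at this
  omega

lemma sig_gt (m : ℕ) (hm : 1 < m) : m < sigma 1 m := by
  rw [sigma_apply]
  have : ({1, m} : Finset ℕ) ⊆ m.divisors := by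
    intro d hd
    simp only [Finset.mem_insert, Finset.mem_singleton] at hd
    rw [Nat.mem_divisors]
    rcases hd with rfl | rfl
    · exact ⟨one_dvd _, by omega⟩
    · exact ⟨dvd_refl _, by omega⟩
  have h2 := Finset.sum_le_sum_of_subset_of_nonneg (f := fun d => d^1) this
    (fun _ _ _ => Nat.zero_le _)
  rw [Finset.sum_pair (by omega)] at h2
  simp only [pow_one] at h2 ⊢
  omega

lemma sig_prime (p : ℕ) (hp : p.Prime) : sigma 1 p = p + 1 := by
  rw [sigma_apply, hp.sum_divisors]
  simp

lemma sig_mul (a b : ℕ) (h : Nat.Coprime a b) : sigma 1 (a * b) = sigma 1 a * sigma 1 b :=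
  isMultiplicative_sigma.map_mul_of_coprime h

/-- `3 | m` and `9 | m` lower bound -/
lemma sig_nine (m : ℕ) (hm : 0 < m) (h : 9 ∣ m) : 13 * m ≤ 9 * sigma 1 m := by
  obtain ⟨k, rfl⟩ := h
  rw [sigma_apply]
  have hk : 0 < k := by omega
  have : ({k, 3 * k, 9 * k} : Finset ℕ) ⊆ (9 * k).divisors := by
    intro d hd
    simp only [Finset.mem_insert, Finset.mem_singleton] at hd
    rw [Nat.mem_divisors]
    rcases hd with rfl | rfl | rfl
    · exact ⟨⟨9, by ring⟩, by omega⟩
    · exact ⟨⟨3, by ring⟩, by omega⟩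
    · exact ⟨dvd_refl _, by omega⟩
  have h2 := Finset.sum_le_sum_of_subset_of_nonneg (f := fun d => d^1) this
    (fun _ _ _ => Nat.zero_le _)
  rw [Finset.sum_insert (by simp; omega), Finset.sum_pair (by omega)] at h2
  simp only [pow_one] at h2 ⊢
  omega

lemma sig_three_pow (k : ℕ) : 2 * sigma 1 (3 ^ k) + 1 = 3 * 3 ^ k := by
  rw [sigma_apply, Nat.sum_divisors_prime_pow Nat.prime_three]
  simp only [pow_one]
  induction k with
  | zero => simp
  | succ k ih => rw [Finset.sum_range_succ, pow_succ]; omega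

lemma sig_seven_pow (k : ℕ) : 6 * sigma 1 (7 ^ k) + 1 = 7 * 7 ^ k := by
  rw [sigma_apply, Nat.sum_divisors_prime_pow (by norm_num : Nat.Prime 7)]
  simp only [pow_one]
  induction k with
  | zero => simp
  | succ k ih => rw [Finset.sum_range_succ, pow_succ]; omega

/-- splitting off a prime -/
lemma split (p N : ℕ) (hp : p.Prime) (hN : N ≠ 0) (h : p ∣ N) :
    ∃ j r, ¬ p ∣ r ∧ N = p ^ (j + 1) * r ∧ N.totient = p ^ j * (p - 1) * r.totient := by
  obtain ⟨e, r, hr, rfl⟩ := Nat.exists_eq_pow_mul_and_not_dvd hN p hp.ne_one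
  obtain ⟨j, rfl⟩ : ∃ j, e = j + 1 := by
    rcases Nat.eq_zero_or_pos e with h0 | h0
    · rw [h0, pow_zero, one_mul] at h; exact absurd h hr
    · exact ⟨e - 1, by omega⟩
  refine ⟨j, r, hr, rfl, ?_⟩
  rw [Nat.totient_mul (Nat.Coprime.pow_left _ ((Nat.Prime.coprime_iff_not_dvd hp).2 hr)),
    Nat.totient_prime_pow_succ hp]

lemma two_mod_four (r : ℕ) (h : r.totient % 4 = 2) :
    r = 4 ∨ ∃ p i, p.Prime ∧ p ≠ 2 ∧ r.totient = p ^ i * (p - 1) ∧
      (r = p ^ (i + 1) ∨ r = 2 * p ^ (i + 1)) := by
  have hr : r ≠ 0 := by rintro rfl; simp at h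
  obtain ⟨t, u, hu, rfl⟩ := Nat.exists_eq_pow_mul_and_not_dvd hr 2 (by norm_num)
  have hco : Nat.Coprime (2 ^ t) u :=
    Nat.Coprime.pow_left _ ((Nat.Prime.coprime_iff_not_dvd Nat.prime_two).2 hu)
  rw [Nat.totient_mul hco] at h ⊢
  rcases (by omega : u = 1 ∨ 2 < u) with h1 | h1
  · left
    subst h1
    rcases (by omega : t = 0 ∨ t = 1 ∨ t = 2 ∨ 3 ≤ t) with h2 | h2 | h2 | h2
    · subst h2; simp at h
    · subst h2; simp at h
    · subst h2; norm_num
    · obtain ⟨s, rfl⟩ : ∃ s, t = s + 3 := ⟨t - 3, by omega⟩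
      rw [Nat.totient_prime_pow_succ (n := s + 2) Nat.prime_two, pow_succ, pow_succ] at h
      simp at h
      omega
  · right
    have hue := Nat.totient_even h1
    rw [Nat.even_iff] at hue
    obtain ⟨x, hx⟩ : ∃ x, u.totient = 2 * x := ⟨u.totient / 2, by omega⟩
    have ht : (2 ^ t).totient % 2 = 1 := by
      rcases Nat.mod_two_eq_zero_or_one (2 ^ t).totient with h3 | h3
      · obtain ⟨y, hy⟩ : ∃ y, (2 ^ t).totient = 2 * y := ⟨(2 ^ t).totient / 2, by omega⟩
        rw [hx, hy] at h
        have : 2 * y * (2 * x) = 4 * (y * x) := by ring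
        omega
      · exact h3
    have ht2 := le_two_of_odd _ ht
    have ht1 : t = 0 ∨ t = 1 := by
      by_contra hc
      have : 2 ^ 2 ≤ 2 ^ t := Nat.pow_le_pow_right (by norm_num) (by omega)
      omega
    have htt : (2 ^ t).totient = 1 := by rcases ht1 with rfl | rfl <;> simp
    rw [htt, one_mul] at h ⊢
    obtain ⟨i, w, hw, huw, hut⟩ := split u.minFac u (Nat.minFac_prime (by omega)) (by omega)
      (Nat.minFac_dvd u)
    have hpp := Nat.minFac_prime (n := u) (by omega)
    have hp2 : u.minFac ≠ 2 := by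
      intro h2
      exact hu (h2 ▸ Nat.minFac_dvd u)
    generalize u.minFac = p at *
    have hp3 : 3 ≤ p := by
      have := hpp.two_le
      omega
    have hw1 : w = 1 := by
      have hw0 : w ≠ 0 := by rintro rfl; simp at huw; omega
      have hw2 : w ≠ 2 := by
        rintro rfl
        exact hu (huw ▸ Dvd.intro_left _ rfl)
      by_contra hne
      have hwe := Nat.totient_even (n := w) (by omega)
      rw [Nat.even_iff] at hwe
      obtain ⟨y, hy⟩ : ∃ y, w.totient = 2 * y := ⟨w.totient / 2, by omega⟩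
      have hodd : p % 2 = 1 := hpp.eq_two_or_odd.resolve_left hp2
      obtain ⟨z, hz⟩ : ∃ z, p - 1 = 2 * z := ⟨(p - 1) / 2, by omega⟩
      rw [hut, hy, hz] at h
      have : p ^ i * (2 * z) * (2 * y) = 4 * (p ^ i * z * y) := by ring
      omega
    subst hw1
    simp only [mul_one, Nat.totient_one] at huw hut
    refine ⟨p, i, hpp, hp2, hut, ?_⟩
    rcases ht1 with rfl | rfl
    · left; rw [huw]; simp
    · right; rw [huw]; simp

theorem result (n : ℕ) (hn : 0 < n) (h : (sigma 1 n).totient = n) :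
    n = 1 ∨ n = 2 ∨ n = 12 ∨ 8 ∣ n := by
  rcases (by omega : n % 2 = 1 ∨ n % 4 = 2 ∨ n % 8 = 4 ∨ n % 8 = 0) with h1 | h1 | h1 | h1
  · left
    have h2 := le_two_of_odd (sigma 1 n) (by rw [h]; exact h1)
    rcases (by omega : n = 1 ∨ 1 < n) with h3 | h3
    · exact h3
    · have := sig_gt n h3
      omega
  · right; left
    obtain ⟨m, rfl⟩ : ∃ m, n = 2 * m := ⟨n / 2, by omega⟩
    have hm : m % 2 = 1 := by omega
    have hco : Nat.Coprime 2 m := by rw [Nat.coprime_two_left, Nat.odd_iff]; exact hm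
    have hN := sig_mul 2 m hco
    rw [sig_prime 2 Nat.prime_two] at hN
    have hN0 : sigma 1 (2 * m) ≠ 0 := by intro h0; rw [h0] at h; simp at h; omega
    obtain ⟨j, r, hr, hNr, hNt⟩ := split 3 _ Nat.prime_three hN0 (hN ▸ Dvd.intro _ rfl)
    rw [h] at hNt
    have hm2 : m = 3 ^ j * r.totient := by
      have : 2 * m = 2 * (3 ^ j * r.totient) := by rw [hNt]; ring
      omega
    have hr1 : r.totient % 2 = 1 := by
      rw [hm2, Nat.mul_mod] at hm
      rcases Nat.mod_two_eq_zero_or_one r.totient with h3 | h3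
      · rw [h3] at hm; simp at hm
      · exact h3
    have hr2 := le_two_of_odd r hr1
    have hrt : r.totient = 1 := by
      interval_cases r <;> simp_all
    rw [hrt, mul_one] at hm2
    have hs := sig_three_pow j
    rw [← hm2] at hs
    rw [hN, pow_succ, ← hm2] at hNr
    have hr0 : r = 1 ∨ r = 2 := by
      have : r ≠ 0 := by rintro rfl; simp at hrt
      omega
    have : m = 1 := by
      rcases hr0 with rfl | rfl <;> omega
    omega
  · right; right; left
    obtain ⟨m, rfl⟩ : ∃ m, n = 4 * m := ⟨n / 4, by omega⟩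
    have hm : m % 2 = 1 := by omega
    have hco : Nat.Coprime 4 m := by
      have : Nat.Coprime (2 ^ 2) m :=
        Nat.Coprime.pow_left 2 (by rw [Nat.coprime_two_left, Nat.odd_iff]; exact hm)
      simpa using this
    have hN := sig_mul 4 m hco
    have hs4 : sigma 1 4 = 7 := by decide
    rw [hs4] at hN
    have hN0 : sigma 1 (4 * m) ≠ 0 := by intro h0; rw [h0] at h; simp at h; omega
    obtain ⟨j, r, hr, hNr, hNt⟩ := split 7 _ (by norm_num) hN0 (hN ▸ Dvd.intro _ rfl)
    rw [h] at hNt
    rw [hN, pow_succ] at hNr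
    have hsm : sigma 1 m = 7 ^ j * r := by
      have : 7 * sigma 1 m = 7 * (7 ^ j * r) := by rw [hNr]; ring
      omega
    have h7 : (7 ^ j) % 2 = 1 := by
      rw [Nat.pow_mod]; norm_num
    have hm2 : 2 * m = 3 * (7 ^ j * r.totient) := by
      have : 2 * (2 * m) = 2 * (3 * (7 ^ j * r.totient)) := by
        have e : 2 * (2 * m) = 4 * m := by ring
        rw [e, hNt]; ring
      omega
    have hr4 : r.totient % 4 = 2 := by
      have h8 : (7 ^ j * r.totient) % 4 = 2 := by omega
      rw [Nat.mul_mod] at h8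
      have a1 : (7 ^ j) % 4 < 4 := Nat.mod_lt _ (by norm_num)
      have a2 : r.totient % 4 < 4 := Nat.mod_lt _ (by norm_num)
      have a3 : (7 ^ j) % 4 = 1 ∨ (7 ^ j) % 4 = 3 := by omega
      rcases a3 with a3 | a3 <;> rw [a3] at h8 <;> omega
    rcases two_mod_four r hr4 with h9 | ⟨p, i, hp, hp2, hrt, h9⟩
    · -- r = 4
      subst h9
      have ht4 : Nat.totient 4 = 2 := by decide
      rw [ht4] at hm2
      have hm3 : m = 3 * 7 ^ j := by omega
      have hc3 : Nat.Coprime 3 (7 ^ j) := Nat.Coprime.pow_right j (by norm_num)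
      have hs := sig_mul 3 (7 ^ j) hc3
      rw [← hm3, sig_prime 3 Nat.prime_three, hsm] at hs
      have h7s := sig_seven_pow j
      have : 7 ^ j = 1 := by omega
      omega
    · have hp3 : 3 ≤ p := by have := hp.two_le; omega
      obtain ⟨y, rfl⟩ : ∃ y, p = y + 3 := ⟨p - 3, by omega⟩
      have hX : 0 < 7 ^ j * (y + 3) ^ i := by positivity
      rw [hrt] at hm2
      have e1 : 7 ^ j * ((y + 3) ^ i * (y + 3 - 1)) = (7 ^ j * (y + 3) ^ i) * (y + 2) := by
        rw [mul_assoc]; rfl
      rw [e1] at hm2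
      rcases h9 with h9 | h9
      · rw [h9] at hsm
        have e2 : 7 ^ j * (y + 3) ^ (i + 1) = (7 ^ j * (y + 3) ^ i) * (y + 3) := by
          rw [pow_succ]; ring
        rw [e2] at hsm
        have hm1 : 1 < m := by nlinarith
        have := sig_gt m hm1
        nlinarith
      · rw [h9] at hsm
        have e2 : 7 ^ j * (2 * (y + 3) ^ (i + 1)) = 2 * ((7 ^ j * (y + 3) ^ i) * (y + 3)) := by
          rw [pow_succ]; ring
        rw [e2] at hsm
        have hpodd : (y + 3) % 2 = 1 := hp.eq_two_or_odd.resolve_left hp2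
        have hodd : ((7 ^ j * (y + 3) ^ i) * (y + 3)) % 2 = 1 := by
          rw [← Nat.odd_iff] at hpodd h7 ⊢
          exact (h7.mul (hpodd.pow)).mul hpodd
        have h3m : 3 ∣ m := by omega
        have h9m : 9 ∣ m := by
          obtain ⟨w, rfl⟩ := h3m
          by_contra h9
          have h3w : ¬ 3 ∣ w := by omega
          have hs := sig_mul 3 w ((Nat.Prime.coprime_iff_not_dvd Nat.prime_three).2 h3w)
          rw [sig_prime 3 Nat.prime_three] at hs
          omega
        have hb := sig_nine m (by omega) h9m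
        by_cases hy0 : y = 0
        · subst hy0
          simp only [zero_add] at *
          have hm3 : m = 7 ^ j * 3 ^ (i + 1) := by
            have : 7 ^ j * 3 ^ (i + 1) = 3 * (7 ^ j * 3 ^ i) := by rw [pow_succ]; ring
            omega
          have hs := sig_mul (7 ^ j) (3 ^ (i + 1)) (Nat.Coprime.pow _ _ (by norm_num))
          rw [← hm3, hsm] at hs
          have b1 := sig_seven_pow j
          have b2 := sig_three_pow (i + 1)
          have b3 : 6 * sigma 1 (7 ^ j) ≤ 7 * 7 ^ j := by omega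
          have b4 : 2 * sigma 1 (3 ^ (i + 1)) ≤ 3 * 3 ^ (i + 1) := by omega
          have b5 := Nat.mul_le_mul b3 b4
          have e5 : 6 * sigma 1 (7 ^ j) * (2 * sigma 1 (3 ^ (i + 1))) =
            12 * (sigma 1 (7 ^ j) * sigma 1 (3 ^ (i + 1))) := by ring
          have e6 : 7 * 7 ^ j * (3 * 3 ^ (i + 1)) = 63 * (7 ^ j * 3 ^ i) := by
            rw [pow_succ]; ring
          rw [e5, e6, ← hs] at b5
          omega
        · -- `3 ∣ p - 1`
          exfalso
          have hX3 : ¬ 3 ∣ 7 ^ j * (y + 3) ^ i := by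
            intro hd
            rcases (Nat.Prime.dvd_mul Nat.prime_three).1 hd with hd | hd
            · have := Nat.Prime.dvd_of_dvd_pow Nat.prime_three hd
              omega
            · have := Nat.Prime.dvd_of_dvd_pow Nat.prime_three hd
              have := (Nat.prime_dvd_prime_iff_eq Nat.prime_three hp).1 this
              omega
          have hy3 : 3 ∣ y + 2 := by
            have : 3 ∣ (7 ^ j * (y + 3) ^ i) * (y + 2) := by
              obtain ⟨k, hk⟩ := h9m
              exact ⟨2 * k, by omega⟩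
            exact ((Nat.Prime.dvd_mul Nat.prime_three).1 this).resolve_left hX3
          have hple : y ≤ 10 := by
            by_contra hc
            push Not at hc
            generalize 7 ^ j * (y + 3) ^ i = X at *
            nlinarith
          have hy7 : y ≠ 4 := by
            rintro rfl
            exact hr (h9 ▸ ⟨2 * 7 ^ i, by rw [pow_succ]; ring⟩)
          generalize 7 ^ j * (y + 3) ^ i = X at *
          interval_cases y <;> omega
  · right; right; right
    omega

end Pool.Agent.Results.MP_ed2bed_nt.DivisibleByEight
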